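import Pool.Agent.H16.FK.TargetsA

/-!
FST: symmetric far rows are symmetric for the enriched types (board `hci_modules`,
`MP_5607ba_lc`).
-/

set_option autoImplicit false

namespace Pool.Agent.H61.FK

open Set Pool.Agent.H75.HCI Pool.Agent.H16.FK

variable {kx k : ℕ} {L : Type}

/-! ## Places -/

lemma sel_append_w {α : Type} (x : List α) (w w' : List ℕ) :
    sel x (w ++ w') = sel x w ++ sel x w' := by
  unfold sel
  rw [List.filterMap_append]

lemma sel_left {α : Type} (x y : List α) (w : List ℕ) (hw : ∀ i ∈ w, i < x.length) :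
    sel (x ++ y) w = sel x w := by
  unfold sel
  refine List.filterMap_congr fun i hi => ?_
  rw [List.getElem?_append_left (hw i hi)]

lemma sel_right {α : Type} (x y : List α) (w : List ℕ) :
    sel (x ++ y) (w.map fun i => x.length + i) = sel y w := by
  unfold sel
  rw [List.filterMap_map]
  refine List.filterMap_congr fun i _ => ?_
  change (x ++ y)[x.length + i]? = y[i]?
  rw [List.getElem?_append_right (Nat.le_add_right _ _), Nat.add_sub_cancel_left]

/-- exchanging two blocks -/
lemma sel_swap {α : Type} (x y z : List α) :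
    sel (x ++ y ++ z) (List.range x.length ++
      ((List.range z.length).map fun i => (x ++ y).length + i) ++
      (List.range y.length).map fun i => x.length + i) = x ++ z ++ y := by
  rw [sel_append_w, sel_append_w, sel_right, sel_range]
  have h1 : sel (x ++ y ++ z) (List.range x.length) = x := by
    rw [List.append_assoc, sel_left, sel_range]
    intro i hi
    exact List.mem_range.1 hi
  have h2 : sel (x ++ y ++ z) ((List.range y.length).map fun i => x.length + i) = y := by
    rw [List.append_assoc, sel_right, sel_left, sel_range]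
    intro i hi
    exact List.mem_range.1 hi
  rw [h1, h2]

lemma swap_eq {T : List (Idx kx k) → L} (hT : FTx T) (x y z x' y' z' : List (Idx kx k))
    (hx : x.length = x'.length) (hy : y.length = y'.length) (hz : z.length = z'.length)
    (h : T (x ++ y ++ z) = T (x' ++ y' ++ z')) : T (x ++ z ++ y) = T (x' ++ z' ++ y') := by
  have h1 := hT _ _ (List.range x.length ++
      ((List.range z.length).map fun i => (x ++ y).length + i) ++
      (List.range y.length).map fun i => x.length + i)
      (by simp only [List.length_append, hx, hy, hz]) h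
  rw [sel_swap] at h1
  have h2 : (x ++ y).length = (x' ++ y').length := by
    simp only [List.length_append, hx, hy]
  rw [h2, hx, hy, hz, sel_swap] at h1
  exact h1

/-! ## The shift -/

/-- the chunks from `n` on are moved by one -/
def sh (n : ℕ) (p : Idx kx k) : Idx kx k := (if p.1 < n then p.1 else p.1 + 1, p.2)

lemma sh_pat (n : ℕ) : PatOn (sh (kx := kx) (k := k) n) Set.univ := by
  refine ⟨fun p _ => rfl, fun p _ q _ => ?_, fun p _ q _ _ u u' v v' hu hv hu' hv' => ?_⟩
  · change (if p.1 < n then p.1 else p.1 + 1) < (if q.1 < n then q.1 else q.1 + 1) ↔ _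
    split_ifs <;> omega
  · have e1 : (Sum.inr u' : Fin kx ⊕ ℕ × Fin k) = Sum.inr u := by rw [← hu', ← hu]; rfl
    have e2 : (Sum.inr v' : Fin kx ⊕ ℕ × Fin k) = Sum.inr v := by rw [← hv', ← hv]; rfl
    rw [Sum.inr.inj e1, Sum.inr.inj e2]

lemma sh_inv {T : List (Idx kx k) → L} (hT : PatInv T) (n : ℕ) (l : List (Idx kx k)) :
    T (l.map (sh n)) = T l := hT (sh n) Set.univ (sh_pat n) l fun _ _ => Set.mem_univ _

lemma sh_low {n : ℕ} {l : List (Idx kx k)} (hl : Blw n l) : l.map (sh n) = l := by
  conv_rhs => rw [← List.map_id l]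
  refine List.map_congr_left fun p hp => ?_
  unfold sh
  rw [if_pos (hl p hp)]
  rfl

lemma sh_prt {n i : ℕ} (hi : n ≤ i) (m : ℕ) (a : List (Fin k)) :
    (prt (kx := kx) i m a).map (sh n) = prt (i + 1) m a := by
  unfold prt
  rw [List.map_map]
  refine List.map_congr_left fun y _ => ?_
  change ((if i < n then i else i + 1), _) = _
  rw [if_neg (by omega)]

lemma sh_frs {n i : ℕ} (hi : n ≤ i) (A : List (List (Fin k))) :
    (frs (kx := kx) i A).map (sh n) = frs (i + 1) A := by
  unfold frs
  rw [List.map_flatten, List.map_map]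
  congr 1
  exact List.map_congr_left fun q _ => sh_prt hi q.2 q.1

lemma sh_rws {n : ℕ} {js : List ℕ} (hj : ∀ j ∈ js, n ≤ j) :
    ((js.map fun j => row (kx := kx) (k := k) j 0).flatten).map (sh n) =
      ((js.map fun j => j + 1).map fun j => row j 0).flatten := by
  rw [List.map_flatten, List.map_map, List.map_map]
  congr 1
  exact List.map_congr_left fun j hj' => sh_prt (hj j hj') 0 _

/-! ## Fresh parts -/

lemma tpw (h1 : T_TPW) {T : List (Idx kx k) → L} (hT : AX T) (l : List (Idx kx k)) (n : ℕ)
    (A : List (List (Fin k))) (hA : Good A) (hn : ∀ m, Miss n m l) :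
    T (l ++ frs n A) = TP T l A := by
  have h2 := h1 kx k L T hT l (A.zipIdx.map fun q => (n, q.2, q.1)) ?_ ?_ ?_
  · rw [List.map_map, List.map_map] at h2
    have h3 : (A.zipIdx.map ((fun q : ℕ × ℕ × List (Fin k) => q.2.2) ∘
        fun q => (n, q.2, q.1))) = A := List.zipIdx_map_fst 0 A
    rw [h3] at h2
    exact h2
  · rw [List.map_map]
    have h3 : (A.zipIdx.map ((fun q : ℕ × ℕ × List (Fin k) => (q.1, q.2.1)) ∘
        fun q => (n, q.2, q.1))) = (A.zipIdx.map Prod.snd).map fun i => (n, i) := by
      rw [List.map_map]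
      rfl
    rw [h3, List.zipIdx_map_snd]
    refine List.Nodup.map ?_ (List.nodup_range' (s := 0) (n := A.length))
    intro i j hij
    exact (Prod.ext_iff.1 hij).2
  · intro q hq
    obtain ⟨q', -, rfl⟩ := List.mem_map.1 hq
    exact hn _
  · rw [List.map_map]
    have h3 : (A.zipIdx.map ((fun q : ℕ × ℕ × List (Fin k) => q.2.2) ∘
        fun q => (n, q.2, q.1))) = A := List.zipIdx_map_fst 0 A
    rw [h3]
    exact hA

lemma exists_bd (l : List (Idx kx k)) : ∃ N, Blw N l := by
  induction l with
  | nil => exact ⟨0, fun p hp => absurd hp (List.not_mem_nil)⟩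
  | cons a l ih =>
    obtain ⟨N, hN⟩ := ih
    refine ⟨max N (a.1 + 1), fun p hp => ?_⟩
    rcases List.mem_cons.1 hp with rfl | hp
    · exact lt_of_lt_of_le (Nat.lt_succ_self _) (le_max_right _ _)
    · exact lt_of_lt_of_le (hN p hp) (le_max_left _ _)

lemma miss_of_blw {N i : ℕ} {l : List (Idx kx k)} (h : Blw N l) (hi : N ≤ i) (m : ℕ) :
    Miss i m l := fun y hy => absurd (h _ hy) (not_lt.2 hi)

lemma TP_sh (h1 : T_TPW) {T : List (Idx kx k) → L} (hT : AX T) (n : ℕ) (l : List (Idx kx k))
    (A : List (List (Fin k))) (hA : Good A) : TP T (l.map (sh n)) A = TP T l A := by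
  obtain ⟨N, hN⟩ := exists_bd l
  have h2 := tpw h1 hT l (max N n) A hA fun m => miss_of_blw hN (le_max_left _ _) m
  have h3 : Blw (max N n + 1) (l.map (sh n)) := by
    intro p hp
    obtain ⟨p', hp', rfl⟩ := List.mem_map.1 hp
    have h4 := hN p' hp'
    change (if p'.1 < n then p'.1 else p'.1 + 1) < _
    have h5 : N ≤ max N n := le_max_left _ _
    split_ifs <;> omega
  have h4 := tpw h1 hT (l.map (sh n)) (max N n + 1) A hA fun m => miss_of_blw h3 le_rfl m
  rw [← h2, ← h4, ← sh_inv hT.pat n (l ++ frs (max N n) A), List.map_append,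
    sh_frs (le_max_right _ _)]

lemma length_rws (js : List ℕ) :
    ((js.map fun j => row (kx := kx) (k := k) j 0).flatten).length = js.length * k := by
  induction js with
  | nil => simp
  | cons a js ih =>
    rw [List.map_cons, List.flatten_cons, List.length_append, ih, List.length_cons]
    have : (row (kx := kx) (k := k) a 0).length = k := by
      unfold row prt
      rw [List.length_map, List.length_finRange]
    rw [this]
    ring

lemma blw_frs (n : ℕ) (A : List (List (Fin k))) : Blw (n + 1) (frs (kx := kx) n A) := by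
  intro p hp
  unfold frs at hp
  obtain ⟨x, hx, hp⟩ := List.mem_flatten.1 hp
  obtain ⟨q, -, rfl⟩ := List.mem_map.1 hx
  unfold prt at hp
  obtain ⟨y, -, rfl⟩ := List.mem_map.1 hp
  exact Nat.lt_succ_self _

/-- one side -/
lemma side (h1 : T_TPW) {T : List (Idx kx k) → L} (hT : AX T) (n : ℕ) (l : List (Idx kx k))
    (js : List ℕ) (hl : Blw n l) (hj : ∀ j ∈ js, n ≤ j) (A : List (List (Fin k)))
    (hA : Good A) :
    TP T (l ++ (js.map fun j => row j 0).flatten) A =
      T (l ++ ((js.map fun j => j + 1).map fun j => row j 0).flatten ++ frs n A) := by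
  rw [← TP_sh h1 hT n _ A hA, List.map_append, sh_low hl, sh_rws hj]
  refine (tpw h1 hT _ n A hA fun m y hy => ?_).symm
  rcases List.mem_append.1 hy with hy | hy
  · exact absurd (hl _ hy) (lt_irrefl _)
  · obtain ⟨x, hx, hy⟩ := List.mem_flatten.1 hy
    obtain ⟨j, hj', rfl⟩ := List.mem_map.1 hx
    obtain ⟨j', hj'', rfl⟩ := List.mem_map.1 hj'
    unfold row prt at hy
    obtain ⟨z, -, hz⟩ := List.mem_map.1 hy
    have e : j' + 1 = n := (Prod.ext_iff.1 hz).1
    have := hj j' hj''
    omega

theorem pf_FST (h1 : T_TPW) : T_FST := by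
  intro kx k L T hT q hF n l js js' hl hp hj hlen hperm
  have hj' : ∀ j ∈ js', n ≤ j := fun j h => hj j (hperm.mem_iff.1 h)
  funext A
  by_cases hA : Good A
  · rw [side h1 hT n l js' hl hj' A hA, side h1 hT n l js hl hj A hA]
    refine swap_eq hT.ft _ _ _ _ _ _ rfl rfl ?_ ?_
    · rw [length_rws, length_rws, List.length_map, List.length_map, hperm.length_eq]
    · refine hF (n + 1) (l ++ frs n A) (js.map fun j => j + 1) (js'.map fun j => j + 1) ?_ ?_ ?_ ?_
        (hperm.map _)
      · intro p hp'
        rcases List.mem_append.1 hp' with h | h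
        · exact (hl p h).trans (Nat.lt_succ_self _)
        · exact blw_frs n A p h
      · exact List.pairwise_map.2 (hp.imp fun h => Nat.succ_lt_succ h)
      · intro j h
        obtain ⟨j0, hj0, rfl⟩ := List.mem_map.1 h
        exact Nat.succ_le_succ (hj j0 hj0)
      · rw [List.length_map]
        exact hlen
  · unfold TP
    rw [if_neg hA, if_neg hA]
    exact hF n l js js' hl hp hj hlen hperm

end Pool.Agent.H61.FK
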